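import Pool.Agent.H42.D2.SpanT
import Pool.Agent.H46.PR.Tie
import Pool.Agent.H5.HL.Two

/-!
# A vector with few values and one linear relation on the line is closed

`gam_cl`: the vector `Gv (g ω)` is a function of the point with few values given the closed record `z`;
on the line `Gv (g ω) . X` is near a function `φ` of the line, `X` the own velocity. If `X` is in no
closed hyperplane, off an exponentially small mass, then the vector is near a function of the line.
`gam_cl'`: the same for vectors which are only near the ones of a code with few values.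
-/

set_option autoImplicit false

namespace Pool.GCL66

open Finset Real
open Pool.Agent.H49.Ent Pool.Agent.H32.Dense Pool.STK Pool.MIC Pool.K2S
open Pool.D2Con
open Pool.BFL (Pb)
open Pool.STB (Pb_mono Pb_or glueLaw')

/-- **A vector with few values and one linear relation on the line is a function of the line.** -/
theorem gam_cl {Ω Λ Z V : Type} [Fintype Ω] {d : ℕ} {p : Ω → ℝ} (hp : IsLaw p) (L : Ω → Λ)
    (z : Ω → Z) (g : Ω → V) (Gv : V → Fin d → ℝ) (X : Ω → Fin d → ℝ) (φ : Ω → ℝ)
    {e c₁ c₀ π₀ η K : ℝ} (hd : 0 < d) (hX : Det p L X) (hz : Det p L z) (hφ : Det p L φ)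
    (he : 0 ≤ e) (hfew : CH p g z ≤ e) (hη : 0 < η) (hK : 0 < K) (hc₀ : 0 < c₀)
    (hnear : Pb p (fun ω => ¬ |∑ j, Gv (g ω) j * X ω j - φ ω| ≤ K) ≤ c₁)
    (nh : NoHyp p X z η π₀) (hπ : π₀ < c₀ / 2 * Real.exp (-(2 * (2 * e + 1) / c₀))) :
    ∃ Γ : Λ → V, Pb p (fun ω => ¬ ∀ j, |Gv (g ω) j - Gv (Γ (L ω)) j| < 2 * K / η) ≤
      2 * c₁ + c₀ := by
  classical
  have p0 := hp.nonneg
  have hr : ∀ v, law p L v = law p L v := fun _ => rfl
  obtain ⟨q, hq⟩ : ∃ q, q = glue p p L L := ⟨_, rfl⟩
  have hql : IsLaw q := by rw [hq]; exact glueLaw' hp hp hr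
  have q0 := hql.nonneg
  have m1 : Marg q p (fun w => w.1) := by rw [hq]; exact marg_fst p0 hr
  have m2 : Marg q p (fun w => w.2) := by rw [hq]; exact marg_snd p0 hr
  have hpos : ∀ w, 0 < q w → 0 < p w.1 ∧ 0 < p w.2 ∧ L w.1 = L w.2 := fun w hw => by
    rw [hq] at hw
    exact (glue_pos_iff p0 p0 w).1 hw
  -- no hyperplane given the record and the two values
  have n1 : NoHyp q (fun w => X w.1) (fun w => z w.1) η π₀ := by
    intro n hn
    by_cases hemp : ∀ ω, 0 < p ω → (∀ j, |n (z ω) j| ≤ 1) ∧ ∃ j, |n (z ω) j| = 1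
    · refine le_trans (le_of_eq ?_) (nh n hemp)
      exact m1.law (fun ω => |∑ j, n (z ω) j * X ω j| ≤ η) True
    · exfalso
      push Not at hemp
      obtain ⟨ω, hω, h1⟩ := hemp
      have h2 : 0 < law p (fun ω' : Ω => ω') ω := by
        refine lt_of_lt_of_le hω ?_
        unfold law
        have := Finset.single_le_sum (f := fun ω' : Ω => if ω' = ω then p ω' else 0)
          (fun ω' _ => by split_ifs; exacts [p0 ω', le_rfl]) (Finset.mem_univ ω)
        simp at this ⊢
      have h3 := m1.law (fun ω' : Ω => ω') ω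
      rw [← h3] at h2
      obtain ⟨w, hw, hw1⟩ : ∃ w, 0 < q w ∧ w.1 = ω := by
        by_contra hcon
        push Not at hcon
        have : law q (fun w => w.1) ω ≤ 0 := by
          unfold law
          refine Finset.sum_nonpos fun w _ => ?_
          by_cases h4 : w.1 = ω
          · rw [if_pos h4]
            by_contra h5
            push Not at h5
            exact hcon w h5 h4
          · rw [if_neg h4]
        exact absurd h2 (not_lt.2 this)
      have h4 := hn w hw
      simp only [hw1] at h4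
      exact h1 h4.1 h4.2.choose h4.2.choose_spec
  have hT : CH q (fun w => (g w.1, g w.2)) (fun w => z w.1) ≤ 2 * e := by
    have c1 := CH_chain q0 (fun w => g w.1) (fun w => g w.2) (fun w => z w.1)
    have c2 : CH q (fun w => g w.2) (fun w => z w.1) ≤ e := by
      have e1 : CH q (fun w => g w.2) (fun w => z w.1) ≤ CH q (fun w => g w.2) (fun w => z w.2) :=
        CH_mono_cond q0 fun w w' hw hw' h => by
          have h1 := hpos w hw
          have h2 := hpos w' hw'
          have a1 : z w.1 = z w.2 := hz _ _ h1.1 h1.2.1 h1.2.2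
          have a2 : z w'.1 = z w'.2 := hz _ _ h2.1 h2.2.1 h2.2.2
          show z w.2 = z w'.2
          rw [← a1, ← a2]
          exact h
      rw [m2.CH g z] at e1
      exact e1.trans hfew
    have c3 : CH q (fun w => g w.1) (fun w => (g w.2, z w.1)) ≤ e := by
      have e1 : CH q (fun w => g w.1) (fun w => (g w.2, z w.1)) ≤
          CH q (fun w => g w.1) (fun w => z w.1) :=
        CH_mono_cond q0 fun w w' _ _ h => (Prod.ext_iff.1 h).2
      rw [m1.CH g z] at e1
      exact e1.trans hfew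
    linarith
  have hI : CH q (fun w => X w.1) (fun w => z w.1) ≤
      CH q (fun w => X w.1) (fun w => ((g w.1, g w.2), z w.1)) + 2 * e := by
    have c1 := CH_bayes q0 (fun w => X w.1) (fun w => (g w.1, g w.2)) (fun w => z w.1)
    have c2 := CH_nonneg q0 (fun w => (g w.1, g w.2)) (fun w => (X w.1, z w.1))
    linarith
  have n2 := n1.prod hql hd (fun w => (g w.1, g w.2)) hc₀ (by positivity : 0 ≤ 2 * e) hI hπ
  have hρ : 0 < 2 * K / η := by positivity
  have n3 := n2.scale q0 hη.le hd hρ (fun s j => Gv s.2.1 j - Gv s.2.2 j)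
  have e2 : 2 * K / η * η = 2 * K := by field_simp
  rw [e2] at n3
  -- two times on one line
  have hb : Pb q (fun w => ¬ ∀ j, |Gv (g w.1) j - Gv (g w.2) j| < 2 * K / η) ≤ 2 * c₁ + c₀ := by
    have a1 : Pb q (fun w => ¬ |∑ j, Gv (g w.1) j * X w.1 j - φ w.1| ≤ K) ≤ c₁ := by
      rw [← law_True]
      refine le_trans (le_of_eq ?_) hnear
      rw [← law_True]
      exact m1.law (fun ω => ¬ |∑ j, Gv (g ω) j * X ω j - φ ω| ≤ K) True
    have a2 : Pb q (fun w => ¬ |∑ j, Gv (g w.2) j * X w.2 j - φ w.2| ≤ K) ≤ c₁ := by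
      rw [← law_True]
      refine le_trans (le_of_eq ?_) hnear
      rw [← law_True]
      exact m2.law (fun ω => ¬ |∑ j, Gv (g ω) j * X ω j - φ ω| ≤ K) True
    rw [law_True] at n3
    have a3 := Pb_or q0 (fun w => ¬ |∑ j, Gv (g w.1) j * X w.1 j - φ w.1| ≤ K)
      (fun w => ¬ |∑ j, Gv (g w.2) j * X w.2 j - φ w.2| ≤ K)
    refine (Pb_mono q0 (B := fun w => (¬ |∑ j, Gv (g w.1) j * X w.1 j - φ w.1| ≤ K ∨
      ¬ |∑ j, Gv (g w.2) j * X w.2 j - φ w.2| ≤ K) ∨
      ((∃ j, 2 * K / η ≤ |Gv (g w.1) j - Gv (g w.2) j|) ∧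
        |∑ j, (Gv (g w.1) j - Gv (g w.2) j) * X w.1 j| ≤ 2 * K)) fun w hw h => ?_).trans
      ((Pb_or q0 _ _).trans ?_)
    · by_cases h1 : |∑ j, Gv (g w.1) j * X w.1 j - φ w.1| ≤ K
      · by_cases h2 : |∑ j, Gv (g w.2) j * X w.2 j - φ w.2| ≤ K
        · right
          push Not at h
          refine ⟨h, ?_⟩
          obtain ⟨b1, b2, b3⟩ := hpos w hw
          have hx : X w.1 = X w.2 := hX _ _ b1 b2 b3
          have hf : φ w.1 = φ w.2 := hφ _ _ b1 b2 b3
          rw [← hx, ← hf] at h2
          have e3 : ∑ j, (Gv (g w.1) j - Gv (g w.2) j) * X w.1 j =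
              (∑ j, Gv (g w.1) j * X w.1 j - φ w.1) -
                (∑ j, Gv (g w.2) j * X w.1 j - φ w.1) := by
            rw [sub_sub_sub_cancel_right, ← Finset.sum_sub_distrib]
            exact Finset.sum_congr rfl fun j _ => by ring
          rw [e3]
          have := abs_sub (∑ j, Gv (g w.1) j * X w.1 j - φ w.1)
            (∑ j, Gv (g w.2) j * X w.1 j - φ w.1)
          linarith
        · exact Or.inl (Or.inr h2)
      · exact Or.inl (Or.inl h1)
    · linarith
  obtain ⟨sel, -, hsel⟩ := Pool.PR46.glue_select hp hp hr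
    (fun ω ω' => ¬ ∀ j, |Gv (g ω) j - Gv (g ω') j| < 2 * K / η)
  exact ⟨fun l => g (sel l), hsel.trans (by rw [← hq]; exact hb)⟩

end Pool.GCL66
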